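import Pool.Agent.Lib.MP_28303a_al.HIG.Iface

/-! # Module CONJ (helper19): `t(w)` and `t(w) w d` are conjugates by word letters -/

set_option autoImplicit false

namespace Pool.Agent.NegK.Hig.H19

open Pool.Agent.NegK.Hig SemidirectProduct

theorem hom_inl {S L S' M : Type} [AddCommGroup L] [AddCommGroup M] (m : M →+ L)
    (c : S' → FreeGroup (S × L)) (x : FreeGroup (S' × M)) :
    Bas.hom m c (inl x) =
      inl (FreeGroup.lift (fun p : S' × M => shift S L (Multiplicative.ofAdd (m p.2)) (c p.1)) x) :=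
  SemidirectProduct.map_inl _ _ _ _

theorem pwd_append (w : List Sg) (a : Sg) :
    pwd (w ++ [a]) = FreeGroup.of (some a) * pwd w := by
  simp [pwd]

theorem pwd_nil : pwd [] = 1 := by simp [pwd]

theorem thet_none {G : Type} [Group G] (g : G) (p : Sg → G) :
    thet g p (FreeGroup.of none) = g := by simp [thet]

theorem thet_some {G : Type} [Group G] (g : G) (p : Sg → G) (a : Sg) :
    thet g p (FreeGroup.of (some a)) = p a := by simp [thet]

/-- The element of `Bas S3` which is sent to `t(w)` by `pα` and to `t(w a)` by `pβ a`. -/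
def twc (m : Mach) (w : List Sg) : Bas S3 m.L := inl (FreeGroup.of (.inl (), m.enc w))

/-- The element of `Bas S3` which is sent to `t(w) w d` by `pα` and to `t(w a) w a d` by `pβ a`. -/
def vwc (m : Mach) (w : List Sg) : Bas S3 m.L :=
  twc m w * inl (FreeGroup.map (fun j => (.inr (.inr j), (0 : m.L))) (ev w)) *
    inl (FreeGroup.of (.inr (.inl ()), 0))

theorem pα_twc (m : Mach) (w : List Sg) : m.pα (twc m w) = m.tw w := by
  unfold Mach.pα twc Mach.tw
  rw [hom_inl]
  simp [Mach.fq, shift_of]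

theorem pβ_twc (m : Mach) (w : List Sg) (a : Sg) : m.pβ a (twc m w) = m.tw (w ++ [a]) := by
  unfold Mach.pβ twc Mach.tw
  rw [hom_inl]
  simp [Mach.fq, shift_of, m.enc_append, add_comm]

theorem pα_d (m : Mach) : m.pα (inl (FreeGroup.of (.inr (.inl ()), 0))) = inl m.fd := by
  unfold Mach.pα
  rw [hom_inl]
  simp [Mach.fd]

theorem pβ_d (m : Mach) (a : Sg) :
    m.pβ a (inl (FreeGroup.of (.inr (.inl ()), 0))) = m.ic (ev [a]) * inl m.fd := by
  unfold Mach.pβ
  rw [hom_inl]
  simp [Mach.fd, Mach.ic]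

theorem pα_c (m : Mach) (x : F2) :
    m.pα (inl (FreeGroup.map (fun j => (.inr (.inr j), (0 : m.L))) x)) = m.ic x := by
  have h : m.pα.comp ((inl : FreeGroup (S3 × m.L) →* Bas S3 m.L).comp
      (FreeGroup.map (fun j => (.inr (.inr j), (0 : m.L))))) = m.ic := by
    refine FreeGroup.ext_hom _ _ fun j => ?_
    show m.pα (inl (FreeGroup.map (fun j => (.inr (.inr j), (0 : m.L))) (FreeGroup.of j))) = _
    unfold Mach.pα
    rw [hom_inl]
    simp [Mach.ic, Mach.fc]
  exact DFunLike.congr_fun h x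

theorem pβ_c (m : Mach) (a : Sg) (x : F2) :
    m.pβ a (inl (FreeGroup.map (fun j => (.inr (.inr j), (0 : m.L))) x)) = m.ic x := by
  have h : (m.pβ a).comp ((inl : FreeGroup (S3 × m.L) →* Bas S3 m.L).comp
      (FreeGroup.map (fun j => (.inr (.inr j), (0 : m.L))))) = m.ic := by
    refine FreeGroup.ext_hom _ _ fun j => ?_
    show m.pβ a (inl (FreeGroup.map (fun j => (.inr (.inr j), (0 : m.L))) (FreeGroup.of j))) = _
    unfold Mach.pβ
    rw [hom_inl]
    simp [Mach.ic, Mach.fc]
  exact DFunLike.congr_fun h x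

theorem pα_vwc (m : Mach) (w : List Sg) : m.pα (vwc m w) = m.vw w := by
  unfold vwc Mach.vw
  rw [map_mul, map_mul, pα_twc, pα_c, pα_d]

theorem pβ_vwc (m : Mach) (w : List Sg) (a : Sg) : m.pβ a (vwc m w) = m.vw (w ++ [a]) := by
  unfold vwc Mach.vw
  rw [map_mul, map_mul, pβ_twc, pβ_c, pβ_d]
  have h : (ev (w ++ [a]) : F2) = ev w * ev [a] := (FreeGroup.mul_mk).symm
  rw [h, map_mul]
  simp only [mul_assoc]

theorem conj_aux {m : Mach} {h : m.Inj} {Gr : Type} [Group Gr] {e : m.K →* Gr}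
    {he : Function.Injective e} {G1 : Type} [Group G1] {e1 : Gr →* G1} {p : Sg → G1}
    (H : IsHNN ((m.psys h).push e he) e1 p) (x : List Sg → m.K) (c : List Sg → Bas S3 m.L)
    (hα : ∀ w, m.pα (c w) = x w) (hβ : ∀ w a, m.pβ a (c w) = x (w ++ [a])) (w : List Sg) :
    thet (e1 (e (x []))) p (pwd w * FreeGroup.of none * (pwd w)⁻¹) = e1 (e (x w)) := by
  induction w using List.reverseRecOn with
  | nil => simp [pwd_nil, thet_none]
  | append_singleton w a ih =>
    rw [pwd_append]
    have h1 : FreeGroup.of (some a) * pwd w * FreeGroup.of none *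
        (FreeGroup.of (some a) * pwd w)⁻¹ =
        FreeGroup.of (some a) * (pwd w * FreeGroup.of none * (pwd w)⁻¹) *
          (FreeGroup.of (some a))⁻¹ := by group
    rw [h1, map_mul, map_mul, map_inv, ih, thet_some]
    have h2 := H.rel a (c w)
    have h3 : p a * e1 (e (m.pα (c w))) = e1 (e (m.pβ a (c w))) * p a := h2
    rw [hα, hβ] at h3
    rw [h3, mul_inv_cancel_right]

theorem conj : ConjStatement := by
  intro m h Gr _ e he G1 _ e1 p H w
  exact ⟨conj_aux H m.tw (twc m) (pα_twc m) (pβ_twc m) w,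
    conj_aux H m.vw (vwc m) (pα_vwc m) (pβ_vwc m) w⟩

end Pool.Agent.NegK.Hig.H19
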