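import Pool.Agent.Lib.MP_28303a_al.HIG.H19.Conj

/-! # Module LGEN (helper19): the subgroup `⟨P, z⟩` is finitely generated -/

set_option autoImplicit false

namespace Pool.Agent.NegK.Hig.H19

open Pool.Agent.NegK.Hig SemidirectProduct

theorem hom_of {S L S' M : Type} [AddCommGroup L] [AddCommGroup M] (m : M →+ L)
    (c : S' → FreeGroup (S × L)) (s : S') (u : M) :
    Bas.hom m c (inl (FreeGroup.of (s, u))) = inl (shift S L (Multiplicative.ofAdd (m u)) (c s)) := by
  rw [hom_inl, FreeGroup.lift_apply_of]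

theorem rα_of (m : Mach) (c : m.Q × m.L) :
    m.rα (c.1, m.res c.2) (inl (FreeGroup.of ((), fun j => c.2 j / 5))) = inl (m.fq c.1 c.2) := by
  unfold Mach.rα
  rw [hom_of]
  simp only [Mach.fq, shift_of]
  congr 3
  ext j
  show ((m.res c.2 j).val : ℤ) + (mul5 m.J fun j => c.2 j / 5) j = c.2 j
  show ((m.res c.2 j).val : ℤ) + 5 * (c.2 j / 5) = c.2 j
  unfold Mach.res
  rw [ZMod.val_intCast]
  exact Int.emod_add_mul_ediv (c.2 j) 5

theorem rβ_of (m : Mach) (c : m.Q × m.L) :
    m.rβ (c.1, m.res c.2) (inl (FreeGroup.of ((), fun j => c.2 j / 5))) =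
      inl (m.fq (m.step c).1 (m.step c).2) := by
  unfold Mach.rβ
  rw [hom_of]
  simp only [Mach.fq, shift_of]
  congr 3
  ext j
  show ((m.be c.1 (m.res c.2) j : ℕ) : ℤ) + (m.al c.1 (m.res c.2) j : ℤ) * (c.2 j / 5) =
    m.al c.1 (m.res c.2) j * (c.2 j / 5) + m.be c.1 (m.res c.2) j
  rw [add_comm]

theorem final_mem (m : Mach) : (m.qh, m.nh) ∈ m.Z := ⟨0, rfl⟩

theorem lgen (hc : ConjStatement) : LgenStatement := by
  intro m h N hN Gr _ e r hr G1 _ e1 p hp hα hβ G2 _ e2 z hz
  set S0 : Set G2 := {e2 (e1 (e (inl (m.fq m.qh m.nh))))} ∪ {e2 (e1 (e (inl m.fd)))} ∪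
    Set.range (fun i => e2 (e1 (r i))) ∪ {z ()} with hS0
  have hfin : S0.Finite := by
    have : Finite (m.J → ZMod 5) := inferInstance
    exact (((Set.finite_singleton _).union (Set.finite_singleton _)).union
      (Set.finite_range _)).union (Set.finite_singleton _)
  have m1 : e2 (e1 (e (inl (m.fq m.qh m.nh)))) ∈ Subgroup.closure S0 :=
    Subgroup.subset_closure (Or.inl (Or.inl (Or.inl rfl)))
  have m2 : e2 (e1 (e (inl m.fd))) ∈ Subgroup.closure S0 :=
    Subgroup.subset_closure (Or.inl (Or.inl (Or.inr rfl)))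
  have m3 : ∀ i, e2 (e1 (r i)) ∈ Subgroup.closure S0 := fun i =>
    Subgroup.subset_closure (Or.inl (Or.inr ⟨i, rfl⟩))
  have m4 : z () ∈ Subgroup.closure S0 := Subgroup.subset_closure (Or.inr rfl)
  have hcfg : ∀ (k : ℕ) (c : m.Q × m.L), m.step^[k] c = (m.qh, m.nh) →
      e2 (e1 (e (inl (m.fq c.1 c.2)))) ∈ Subgroup.closure S0 := by
    intro k
    induction k with
    | zero =>
      intro c hcc
      have hcc' : c = (m.qh, m.nh) := hcc
      rw [hcc']
      exact m1
    | succ k ih =>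
      intro c hcc
      rw [Function.iterate_succ_apply] at hcc
      have h1 := ih (m.step c) hcc
      have h2 := hr.rel (c.1, m.res c.2) (inl (FreeGroup.of ((), fun j => c.2 j / 5)))
      have h3 : r (c.1, m.res c.2) * e (inl (m.fq c.1 c.2)) =
          e (inl (m.fq (m.step c).1 (m.step c).2)) * r (c.1, m.res c.2) := by
        rw [← rα_of m c, ← rβ_of m c]
        exact h2
      have h4 : e (inl (m.fq c.1 c.2)) = (r (c.1, m.res c.2))⁻¹ *
          e (inl (m.fq (m.step c).1 (m.step c).2)) * r (c.1, m.res c.2) := by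
        rw [mul_assoc, ← h3, inv_mul_cancel_left]
      rw [h4]
      simp only [map_mul, map_inv]
      exact mul_mem (mul_mem (inv_mem (m3 _)) h1) (m3 _)
  have hH0 : m.H0 N ≤ (Subgroup.closure S0).comap ((e2.comp e1).comp e) := by
    unfold Mach.H0
    rw [Subgroup.closure_le]
    rintro x ((⟨c, ⟨k, hk⟩, rfl⟩ | hx) | ⟨y, hy, rfl⟩)
    · exact hcfg k c hk
    · rw [Set.mem_singleton_iff] at hx
      rw [hx]
      exact m2
    · have hw : ev y.toWord = y := FreeGroup.mk_toWord
      have hacc : m.Acc y.toWord := by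
        rw [hN, hw]
        exact hy
      obtain ⟨k, hk⟩ := hacc
      have t1 : e2 (e1 (e (m.tw y.toWord))) ∈ Subgroup.closure S0 :=
        hcfg k (m.qin, m.enc y.toWord) hk
      obtain ⟨c1, c2⟩ := hc m h Gr e hr.inj G1 e1 p hp y.toWord
      have h2 := hz.rel () (pwd y.toWord * FreeGroup.of none * (pwd y.toWord)⁻¹)
      have h3 : z () * e2 (thet (e1 (e (m.tw []))) p
          (pwd y.toWord * FreeGroup.of none * (pwd y.toWord)⁻¹)) =
          e2 (thet (e1 (e (m.vw []))) p
          (pwd y.toWord * FreeGroup.of none * (pwd y.toWord)⁻¹)) * z () := h2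
      rw [c1, c2] at h3
      have h4 : e2 (e1 (e (m.vw y.toWord))) ∈ Subgroup.closure S0 := by
        have : e2 (e1 (e (m.vw y.toWord))) = z () * e2 (e1 (e (m.tw y.toWord))) * (z ())⁻¹ := by
          rw [h3, mul_inv_cancel_right]
        rw [this]
        exact mul_mem (mul_mem m4 t1) (inv_mem m4)
      have h5 : m.ic y = (m.tw y.toWord)⁻¹ * m.vw y.toWord * (inl m.fd)⁻¹ := by
        unfold Mach.vw
        rw [hw]
        group
      show e2 (e1 (e (m.ic y))) ∈ Subgroup.closure S0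
      rw [h5]
      simp only [map_mul, map_inv]
      exact mul_mem (mul_mem (inv_mem t1) h4) (inv_mem m2)
  rw [Subgroup.fg_iff]
  refine ⟨S0, le_antisymm ?_ ?_, hfin⟩
  · rw [Subgroup.closure_le]
    have k0 : ∀ x ∈ m.H0 N, e2 (e1 (e x)) ∈ gen e2 z ((gen e r (m.H0 N)).map e1) := fun x hx =>
      gen_of e2 z (Subgroup.mem_map_of_mem e1 (gen_of e r hx))
    rintro x (((hx | hx) | ⟨i, rfl⟩) | hx)
    · rw [Set.mem_singleton_iff] at hx
      rw [hx]
      exact k0 _ (Subgroup.subset_closure (Or.inl (Or.inl ⟨_, final_mem m, rfl⟩)))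
    · rw [Set.mem_singleton_iff] at hx
      rw [hx]
      exact k0 _ (Subgroup.subset_closure (Or.inl (Or.inr rfl)))
    · exact gen_of e2 z (Subgroup.mem_map_of_mem e1 (gen_s e r _ i))
    · rw [Set.mem_singleton_iff] at hx
      rw [hx]
      exact gen_s e2 z _ ()
  · unfold gen
    rw [Subgroup.closure_le]
    rintro x (⟨y, hy, rfl⟩ | ⟨u, rfl⟩)
    · obtain ⟨g, hg, rfl⟩ := Subgroup.mem_map.1 hy
      have hle : Subgroup.closure (e '' (m.H0 N : Set m.K) ∪ Set.range r) ≤
          (Subgroup.closure S0).comap (e2.comp e1) := by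
        rw [Subgroup.closure_le]
        rintro v (⟨a, ha, rfl⟩ | ⟨i, rfl⟩)
        · exact hH0 ha
        · exact m3 i
      exact hle hg
    · exact m4

end Pool.Agent.NegK.Hig.H19
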