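import Pool.Agent.Lib.MP_28303a_al.HIG.H19.Conj

/-! # Module PFREE (helper19): `t, p_a` generate a free group, and so do `t d, p_a`

Only PCOMP is used. -/

set_option autoImplicit false

namespace Pool.Agent.NegK.Hig.H19

open Pool.Agent.NegK.Hig SemidirectProduct

theorem enc_inj (m : Mach) : Function.Injective m.enc := by
  intro w
  induction w using List.reverseRecOn with
  | nil =>
    intro w' hw
    rcases List.eq_nil_or_concat' w' with h | ⟨v, a, h⟩
    · exact h.symm
    · rw [h, m.enc_append] at hw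
      obtain ⟨v', hv, -⟩ := m.enc_sep [] _ _ hw
      simp at hv
  | append_singleton w a ih =>
    intro w' hw
    rw [m.enc_append] at hw
    obtain ⟨v', hv, hu⟩ := m.enc_sep w' _ _ hw.symm
    rw [hv, ih hu]

/-- The left component on a subgroup of the normal factor. -/
def leftHom {N G : Type} [Group N] [Group G] {φ : G →* MulAut N} (H : Subgroup (N ⋊[φ] G))
    (hH : ∀ x ∈ H, x.right = 1) : H →* N where
  toFun x := x.1.left
  map_one' := rfl
  map_mul' x y := by
    show (x.1 * y.1).left = x.1.left * y.1.left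
    rw [SemidirectProduct.mul_left, hH x.1 x.2, map_one]
    rfl

theorem pfree_aux {m : Mach} {h : m.Inj} {Gr : Type} [Group Gr] {e : m.K →* Gr}
    {he : Function.Injective e} {G1 : Type} [Group G1] {e1 : Gr →* G1} {p : Sg → G1}
    (H : IsHNN ((m.psys h).push e he) e1 p) (x : List Sg → FreeGroup (m.S × m.L))
    (c : List Sg → Bas S3 m.L) (hα : ∀ w, m.pα (c w) = inl (x w))
    (hβ : ∀ w a, m.pβ a (c w) = inl (x (w ++ [a])))
    (F0 : FreeGroup (m.S × m.L) →* FreeGroup (Option Sg))
    (hF0 : ∀ w, F0 (x w) = pwd w * FreeGroup.of none * (pwd w)⁻¹)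
    (T : Subgroup m.K) (hT : T = Subgroup.closure (Set.range fun w => (inl (x w) : m.K)))
    (hcomp : (m.psys h).Compat T) :
    Function.Injective (thet (e1 (e (inl (x [])))) p) := by
  have hright : ∀ y ∈ T, y.right = 1 := by
    intro y hy
    have hle : T ≤ (rightHom : m.K →* Multiplicative m.L).ker := by
      rw [hT, Subgroup.closure_le]
      rintro _ ⟨w, rfl⟩
      show rightHom (inl (x w)) = 1
      rw [rightHom_inl]
    exact hle hy
  have hmem : ∀ w, (inl (x w) : m.K) ∈ T := by
    intro w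
    rw [hT]
    exact Subgroup.subset_closure ⟨w, rfl⟩
  have hcomp2 : ((m.psys h).push e he).Compat (T.map e) := by
    intro a d
    show e (m.pα d) ∈ T.map e ↔ e (m.pβ a d) ∈ T.map e
    rw [Subgroup.mem_map_iff_mem he, Subgroup.mem_map_iff_mem he]
    exact hcomp a d
  -- elements sent to `T` by `pα`
  have hcl : ∀ d, m.pα d ∈ T → d ∈ Subgroup.closure (Set.range c) := by
    intro d hd
    have h1 : T = (Subgroup.closure (Set.range c)).map m.pα := by
      rw [MonoidHom.map_closure, hT, ← Set.range_comp]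
      congr 2
      funext w
      exact (hα w).symm
    rw [h1, Subgroup.mem_map_iff_mem h.pα] at hd
    exact hd
  have hrel : ∀ (a : Sg) (d : Bas S3 m.L), d ∈ Subgroup.closure (Set.range c) →
      (m.pα d ∈ T ∧ m.pβ a d ∈ T ∧
        FreeGroup.of (some a) * F0 (m.pα d).left = F0 (m.pβ a d).left * FreeGroup.of (some a)) := by
    intro a d hd
    induction hd using Subgroup.closure_induction with
    | mem d hd =>
      obtain ⟨w, rfl⟩ := hd
      rw [hα, hβ]
      refine ⟨hmem _, hmem _, ?_⟩
      rw [left_inl, left_inl, hF0, hF0, pwd_append]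
      group
    | one => simp [one_mem]
    | mul d1 d2 _ _ i1 i2 =>
      obtain ⟨a1, b1, r1⟩ := i1
      obtain ⟨a2, b2, r2⟩ := i2
      rw [map_mul, map_mul]
      refine ⟨mul_mem a1 a2, mul_mem b1 b2, ?_⟩
      rw [SemidirectProduct.mul_left, SemidirectProduct.mul_left, hright _ a1, hright _ b1,
        map_one]
      show FreeGroup.of (some a) * F0 ((m.pα d1).left * (m.pα d2).left) =
        F0 ((m.pβ a d1).left * (m.pβ a d2).left) * FreeGroup.of (some a)
      rw [map_mul, map_mul, ← mul_assoc, r1, mul_assoc, r2, mul_assoc]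
    | inv d1 _ i1 =>
      obtain ⟨a1, b1, r1⟩ := i1
      rw [map_inv, map_inv]
      refine ⟨inv_mem a1, inv_mem b1, ?_⟩
      have q1 : ((m.pα d1)⁻¹).left = ((m.pα d1).left)⁻¹ := by
        rw [SemidirectProduct.inv_left, hright _ a1, inv_one, map_one]
        rfl
      have q2 : ((m.pβ a d1)⁻¹).left = ((m.pβ a d1).left)⁻¹ := by
        rw [SemidirectProduct.inv_left, hright _ b1, inv_one, map_one]
        rfl
      rw [q1, q2, map_inv, map_inv, mul_inv_eq_iff_eq_mul, mul_assoc, eq_inv_mul_iff_mul_eq]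
      exact r1.symm
  -- the homomorphism on `T.map e`
  let g : T.map e →* T :=
    ((T.equivMapOfInjective e he).symm : T.map e ≃* T).toMonoidHom
  have hg : ∀ (y : m.K) (hy : y ∈ T), g ⟨e y, Subgroup.mem_map_of_mem e hy⟩ = ⟨y, hy⟩ := by
    intro y hy
    show (T.equivMapOfInjective e he).symm ⟨e y, Subgroup.mem_map_of_mem e hy⟩ = ⟨y, hy⟩
    rw [MulEquiv.symm_apply_eq]
    rfl
  let f : T.map e →* FreeGroup (Option Sg) := F0.comp ((leftHom T hright).comp g)
  have hf : ∀ (y : m.K) (hy : y ∈ T), f ⟨e y, Subgroup.mem_map_of_mem e hy⟩ = F0 y.left := by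
    intro y hy
    show F0 (leftHom T hright (g ⟨e y, Subgroup.mem_map_of_mem e hy⟩)) = F0 y.left
    rw [hg y hy]
    rfl
  obtain ⟨F, hF1, hF2⟩ := H.lift (T.map e) hcomp2 (FreeGroup (Option Sg)) f
    (fun a => FreeGroup.of (some a)) (by
      intro a d h1 h2
      have h1' : m.pα d ∈ T := (Subgroup.mem_map_iff_mem he).1 h1
      obtain ⟨_, h2', r⟩ := hrel a d (hcl d h1')
      have e1' := hf (m.pα d) h1'
      have e2' := hf (m.pβ a d) h2'
      show FreeGroup.of (some a) * f ⟨e (m.pα d), h1⟩ =
        f ⟨e (m.pβ a d), h2⟩ * FreeGroup.of (some a)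
      rw [e1', e2']
      exact r)
  -- the retraction
  have hrange : ∀ y : FreeGroup (Option Sg), thet (e1 (e (inl (x [])))) p y ∈ gen e1 p (T.map e) := by
    intro y
    induction y using FreeGroup.induction_on with
    | C1 => rw [map_one]; exact one_mem _
    | of o =>
      cases o with
      | none =>
        show thet (e1 (e (inl (x [])))) p (FreeGroup.of none) ∈ _
        rw [thet_none]
        exact gen_of e1 p (Subgroup.mem_map_of_mem e (hmem []))
      | some a =>
        show thet (e1 (e (inl (x [])))) p (FreeGroup.of (some a)) ∈ _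
        rw [thet_some]
        exact gen_s e1 p _ a
    | inv_of o ih =>
      rw [map_inv]
      exact inv_mem ih
    | mul y z iy iz =>
      rw [map_mul]
      exact mul_mem iy iz
  let th : FreeGroup (Option Sg) →* gen e1 p (T.map e) :=
    (thet (e1 (e (inl (x [])))) p).codRestrict _ hrange
  have hid : F.comp th = MonoidHom.id _ := by
    refine FreeGroup.ext_hom _ _ fun o => ?_
    cases o with
    | none =>
      have k1 : th (FreeGroup.of none) =
          ⟨e1 (e (inl (x []))), gen_of e1 p (Subgroup.mem_map_of_mem e (hmem []))⟩ :=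
        Subtype.ext (thet_none _ _)
      rw [MonoidHom.comp_apply, k1]
      have k2 := hF1 ⟨e (inl (x [])), Subgroup.mem_map_of_mem e (hmem [])⟩
      rw [k2, hf _ (hmem []), left_inl, hF0, pwd_nil]
      simp
    | some a =>
      have k1 : th (FreeGroup.of (some a)) = ⟨p a, gen_s e1 p _ a⟩ :=
        Subtype.ext (thet_some _ _ _)
      rw [MonoidHom.comp_apply, k1, hF2]
      rfl
  intro y z hyz
  have k1 : th y = th z := Subtype.ext hyz
  have k2 : F.comp th y = F.comp th z := congrArg F k1
  rw [hid] at k2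
  exact k2

open Classical in
/-- The homomorphism `t(w) ↦ pwd w * t * (pwd w)⁻¹`, all other basis elements `↦ 1`. -/
noncomputable def F0 (m : Mach) : FreeGroup (m.S × m.L) →* FreeGroup (Option Sg) :=
  FreeGroup.lift fun s => if hs : ∃ w, s = (.inl m.qin, m.enc w) then
    pwd hs.choose * FreeGroup.of none * (pwd hs.choose)⁻¹ else 1

theorem F0_t (m : Mach) (w : List Sg) :
    F0 m (m.fq m.qin (m.enc w)) = pwd w * FreeGroup.of none * (pwd w)⁻¹ := by
  unfold F0 Mach.fq
  rw [FreeGroup.lift_apply_of]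
  have hs : ∃ w', (((.inl m.qin : m.S), m.enc w) : m.S × m.L) = (.inl m.qin, m.enc w') := ⟨w, rfl⟩
  rw [dif_pos hs]
  have h1 : m.enc w = m.enc hs.choose := (Prod.ext_iff.1 hs.choose_spec).2
  rw [← enc_inj m h1]

theorem F0_d (m : Mach) : F0 m m.fd = 1 := by
  unfold F0 Mach.fd
  rw [FreeGroup.lift_apply_of]
  have hs : ¬ ∃ w, (((.inr (.inl ()) : m.S), (0 : m.L)) : m.S × m.L) = (.inl m.qin, m.enc w) := by
    rintro ⟨w, hw⟩
    simp at hw
  rw [dif_neg hs]

theorem F0_c (m : Mach) (y : F2) : F0 m (m.fc y) = 1 := by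
  have h : (F0 m).comp m.fc = 1 := by
    refine FreeGroup.ext_hom _ _ fun j => ?_
    show F0 m (m.fc (FreeGroup.of j)) = 1
    unfold F0 Mach.fc
    rw [FreeGroup.map.of, FreeGroup.lift_apply_of]
    have hs : ¬ ∃ w, (((.inr (.inr j) : m.S), (0 : m.L)) : m.S × m.L) = (.inl m.qin, m.enc w) := by
      rintro ⟨w, hw⟩
      simp at hw
    rw [dif_neg hs]
  exact DFunLike.congr_fun h y

theorem pfree (hP : PcompStatement) : PfreeStatement := by
  intro m h Gr _ e he G1 _ e1 p H
  obtain ⟨hT, hV⟩ := hP m h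
  constructor
  · exact pfree_aux H (fun w => m.fq m.qin (m.enc w)) (twc m) (pα_twc m) (pβ_twc m) (F0 m)
      (F0_t m) m.T1 rfl hT
  · have hv : ∀ w, m.vw w = inl (m.fq m.qin (m.enc w) * m.fc (ev w) * m.fd) := by
      intro w
      rw [map_mul, map_mul]
      rfl
    rw [hv]
    refine pfree_aux H (fun w => m.fq m.qin (m.enc w) * m.fc (ev w) * m.fd) (vwc m)
      (fun w => by rw [pα_vwc, hv]) (fun w a => by rw [pβ_vwc, hv]) (F0 m) (fun w => ?_) m.V1 ?_ hV
    · rw [map_mul, map_mul, F0_t, F0_c, F0_d, mul_one, mul_one]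
    · unfold Mach.V1
      congr 2
      funext w
      exact hv w

end Pool.Agent.NegK.Hig.H19
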